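import Pool.Agent.X264.FL.Main

/-!
# Termination for non-pseudo-effective pairs is as strong as termination for all pairs
-/

set_option autoImplicit false

open Pool.Agent.X264.FL

namespace Pool.Agent.Results.MP_89a3f8_ag.ProductsWithTheLine

universe u

/-- **Products with the projective line.** Let `(X, Δ)` be a `ℚ`-factorial klt pair, projective over
`S`, pseudo-effective or not. Then `(X × ℙ¹, Δ × ℙ¹)` is never pseudo-effective over `S`, and every
sequence of flips starting from `(X, Δ)` is finite if and only if every sequence of flips starting from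
`(X × ℙ¹, Δ × ℙ¹)` is finite. Hence Q1 is equivalent to the termination of all sequences of flips of
all `ℚ`-factorial klt pairs. -/
theorem result (T : Theory.{u}) (hT : T.IsKnown) (hc : T.HasCovering) (hl : T.HasLine) :
    (∀ X, ¬ T.Psef (T.prod X T.line) ∧ (T.Terminates (T.prod X T.line) ↔ T.Terminates X)) ∧
      ((∀ X, ¬ T.Psef X → T.Terminates X) ↔ ∀ X, T.Terminates X) :=
  ⟨fun X => ⟨Theory.not_psef hc hl hT X, Theory.line_iff hT hl X⟩,
    (Theory.main hT hc hl).symm⟩

end Pool.Agent.Results.MP_89a3f8_ag.ProductsWithTheLine
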